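import Mathlib
import Pool.Agent.Lib.SSG.LT.EM

/-! # SSG/LP: the embedding for every place above p -/

open NumberField IsDedekindDomain

namespace SSG.LP

/-! Chunk A (S/M). PROOF. SSG.LT.em with F := ℚ: Algebra ℚ Ω (DivisionRing.toRatAlgebra, characteristic 0), IsAlgClosure ℚ Ω: Ω is algebraically closed and algebraic over ℚ (as in the proof of SSG.LT.em); (p : 𝓞 ℚ) is prime: 𝓞 ℚ ≃+* ℤ
(Rat.ringOfIntegersEquiv), MulEquiv.prime_iff, Nat.prime_iff_prime_int. -/

/-- Every place of `Ω` above `p` comes from an embedding in `PadicAlgCl p`. -/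
theorem em_all {F : Type} [Field F] [NumberField F] {Ω : Type} [Field Ω] [Algebra F Ω] [IsAlgClosure F Ω] {p : ℕ}
    [Fact p.Prime] (V : ValuationSubring Ω) (hV : V.valuation (p : Ω) < 1) :
    ∃ i₀ : Ω →+* PadicAlgCl p, ∀ x, x ∈ V ↔ ‖i₀ x‖ ≤ 1 := by
  have hac : IsAlgClosed Ω := IsAlgClosure.isAlgClosed F
  have hal : Algebra.IsAlgebraic F Ω := IsAlgClosure.isAlgebraic
  have hch : CharZero Ω := charZero_of_injective_algebraMap (algebraMap F Ω).injective
  have halQ : Algebra.IsAlgebraic ℚ F := inferInstance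
  have hal2 : Algebra.IsAlgebraic ℚ Ω := Algebra.IsAlgebraic.trans ℚ F Ω
  have hcl : IsAlgClosure ℚ Ω := ⟨hac, hal2⟩
  have hp : p.Prime := Fact.out
  have hin : Prime (p : 𝓞 ℚ) := by
    rw [← MulEquiv.prime_iff Rat.ringOfIntegersEquiv.toMulEquiv]
    have h1 : Rat.ringOfIntegersEquiv.toMulEquiv (p : 𝓞 ℚ) = (p : ℤ) := map_natCast Rat.ringOfIntegersEquiv p
    rw [h1]
    exact Nat.prime_iff_prime_int.mp hp
  exact SSG.LT.em (F := ℚ) hin V hV

end SSG.LP
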