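import Mathlib
import Pool.Agent.Lib.H55K.D0
import Pool.Agent.Lib.H35M.KD
import Pool.Agent.Lib.H35M.KL6

/-! # SSG/LP: the local model at a prime element β below a place V of good reduction (definitions) -/

open NumberField IsDedekindDomain WeierstrassCurve

namespace SSG.LP

open H55P (IQ embF eF LF Per IsHecke Pt ac Inert Dec)
open H35P (WAB Ker tt)
open H55K

variable {F : Type} [Field F] [NumberField F] [IQ F]

/-- The residue ring modulo `β ^ N`. -/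
abbrev RB (β : 𝓞 F) (N : ℕ) : Type := 𝓞 F ⧸ Ideal.span {β ^ N}

/-- The points `T N` of order `β ^ N` with parameter `1 / β ^ N`, in the kernel of reduction. -/
structure PtsB (A B : F) (Om : ℂ) {Ω : Type} [Field Ω] [DecidableEq Ω] [Algebra F Ω] (j : Ω →+* ℂ)
    (act : 𝓞 F →+* AddMonoid.End (Pt (WAB A B) Ω)) (β : 𝓞 F) (V : ValuationSubring Ω)
    (T : ℕ → Pt (WAB A B) Ω) : Prop where
  zero : ∀ N (a : 𝓞 F), act a (T N) = 0 ↔ β ^ N ∣ a
  down : ∀ N, act β (T (N + 1)) = T N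
  unif : ∀ N (a : 𝓞 F), ¬ β ^ N ∣ a →
    j (xc (act a (T N))) = (LF F).weierstrassP (eF F a / (eF F β) ^ N) / Om ^ 2 ∧
    j (yc (act a (T N))) = (LF F).derivWeierstrassP (eF F a / (eF F β) ^ N) / (2 * Om ^ 3)
  ker : ∀ N (a : 𝓞 F), Ker V (act a (T N))

/-- The local model at `V`: the coordinates `X N` of the points of order `β ^ N`. -/
structure LocO (A B : F) (Om : ℂ) {Ω : Type} [Field Ω] [DecidableEq Ω] [Algebra F Ω] (j : Ω →+* ℂ)
    (act : 𝓞 F →+* AddMonoid.End (Pt (WAB A B) Ω)) (β : 𝓞 F) (V : ValuationSubring Ω) {C : Type} [NormedField C]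
    (i : Ω →+* C) (T : ℕ → Pt (WAB A B) Ω) (X : ∀ N, RB β N → C) : Prop
    extends PtsB A B Om j act β V T where
  val : ∀ x : Ω, x ∈ V ↔ ‖i x‖ ≤ 1
  Xmk : ∀ N (a : 𝓞 F), X N (Ideal.Quotient.mk _ a) = i (tt (act a (T N)))
  small : ∀ N, ∃ ρ : ℝ, ρ < 1 ∧ ∀ a, ‖X N a‖ ≤ ρ
  fg : ∀ N, H35M.FG (X N)
  prod : ∀ N [Fintype (RB β N)] [DecidableEq (RB β N)], ‖H35M.cX (X N)‖ = ‖i (ak Ω β)‖ ^ N
  fn : ∀ (N : ℕ) (ι : Type) [Fintype ι] (c : ι → 𝓞 F) (H : (ι → RB β N) → C),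
    (∀ a : ι → 𝓞 F, H (fun k => Ideal.Quotient.mk _ (a k)) = i (tt (act (∑ k, c k * a k) (T N)))) →
      H35M.FnM (X N) ι H

end SSG.LP
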