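import Mathlib
import Pool.Agent.Lib.SSG.LP.D
import Pool.Agent.Lib.H55K.G5E
import Pool.Agent.Lib.H55K.SD

/-! # SSG/LP: the points T N for a prime element β -/

open NumberField IsDedekindDomain WeierstrassCurve

namespace SSG.LP

open H55P (IQ embF eF LF Per IsHecke Pt ac Inert Dec)
open H35P (WAB Ker tt)
open H55K

variable {F : Type} [Field F] [NumberField F] [IQ F] {A B : F} {Om : ℂ} {Ω : Type} [Field Ω] [DecidableEq Ω]
  [Algebra F Ω] {j : Ω →+* ℂ} {act : 𝓞 F →+* AddMonoid.End (Pt (WAB A B) Ω)} {β : 𝓞 F} {V : ValuationSubring Ω}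

/-! Chunk B (S/M). PROOF. Copy of SSG/LT/PT.lean with β in place of -p and β^N in place of (-p)^N (no sign questions: h.gen (β^N), eF F (β^N) = (eF F β)^N; eF F β ≠ 0: eF is injective, embF of β ≠ 0). -/

theorem lp_b_one (h : CMA F A B Om j act) (hβ : Prime β) (N : ℕ) : ∃ T₀ : Pt (WAB A B) Ω, (∀ a : 𝓞 F, act a T₀ = 0 ↔ β ^ N ∣ a) ∧
    ∀ a : 𝓞 F, ¬ β ^ N ∣ a →
      j (xc (act a T₀)) = (LF F).weierstrassP (eF F a / (eF F β) ^ N) / Om ^ 2 ∧
      j (yc (act a T₀)) = (LF F).derivWeierstrassP (eF F a / (eF F β) ^ N) / (2 * Om ^ 3) := by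
  have hb : β ^ N ≠ 0 := pow_ne_zero _ hβ.ne_zero
  obtain ⟨T₀, -, -, h1, h2⟩ := h.gen _ hb
  have he : eF F (β ^ N) = (eF F β) ^ N := by rw [map_pow]
  refine ⟨T₀, h1, fun a ha => ?_⟩
  have h3 := h2 a ha
  rw [he] at h3
  exact h3

theorem lp_b_ker (h : CMA F A B Om j act) (hG : GV A B V) (hβ : Prime β) (hv : V.valuation (ak Ω β) < 1) (n : ℕ)
    {X : Pt (WAB A B) Ω} (hX : act (β ^ n) X = 0) : Ker V X := by
  induction n generalizing X with
  | zero =>
    rw [pow_zero, map_one] at hX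
    have h1 : X = 0 := hX
    rw [h1]
    exact ker_zero V
  | succ n ih =>
    rw [pow_succ, map_mul] at hX
    have h1 : act (β ^ n) (act β X) = 0 := hX
    have h2 : Ker V (act β X) := ih h1
    exact ker_red h hG hβ hv h2

theorem pts (h : CMA F A B Om j act) (hG : GV A B V) (hβ : Prime β) (hv : V.valuation (ak Ω β) < 1) :
    ∃ T : ℕ → Pt (WAB A B) Ω, PtsB A B Om j act β V T := by
  choose T hT1 hT2 using fun N => lp_b_one h hβ N
  have hact1 : ∀ X : Pt (WAB A B) Ω, act 1 X = X := by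
    intro X
    rw [map_one]
    rfl
  have hactm : ∀ (a b : 𝓞 F) (X : Pt (WAB A B) Ω), act (a * b) X = act a (act b X) := by
    intro a b X
    rw [map_mul]
    rfl
  refine ⟨T, hT1, ?_, hT2, ?_⟩
  · intro N
    rcases Nat.eq_zero_or_pos N with hN | hN
    · subst hN
      have h1 : T 0 = 0 := by
        rw [← hact1 (T 0), hT1 0 1, pow_zero]
      rw [h1, hT1 (0 + 1)]
      rw [zero_add, pow_one]
    · have h1 : act β (T (N + 1)) ≠ 0 := by
        rw [Ne, hT1 (N + 1)]
        intro hd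
        have h2 : β ^ (N + 1) ∣ β ^ 1 := by rwa [pow_one]
        rw [pow_dvd_pow_iff hβ.ne_zero hβ.not_unit] at h2
        omega
      have h1' : ¬ β ^ (N + 1) ∣ β := fun hd => h1 ((hT1 (N + 1) _).2 hd)
      have h2' : ¬ β ^ N ∣ 1 := by
        intro hd
        exact hβ.not_unit (isUnit_pow_iff hN.ne' |>.1 (isUnit_of_dvd_one hd))
      have h2 : T N ≠ 0 := by
        intro h0
        rw [← hact1 (T N), hT1 N 1] at h0
        exact h2' h0
      obtain ⟨h3, h4⟩ := hT2 (N + 1) _ h1'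
      obtain ⟨h5, h6⟩ := hT2 N 1 h2'
      rw [hact1] at h5 h6
      have he : eF F β / (eF F β) ^ (N + 1) = eF F 1 / (eF F β) ^ N := by
        rw [map_one, pow_succ]
        have h7 : eF F β ≠ 0 := H55P.eF_ne hβ.ne_zero
        field_simp
      rw [he] at h3 h4
      exact pt_ext h1 h2 (j.injective (h3.trans h5.symm)) (j.injective (h4.trans h6.symm))
  · intro N a
    refine lp_b_ker h hG hβ hv N (X := act a (T N)) ?_
    rw [← hactm, hT1 N]
    exact dvd_mul_right _ _

end SSG.LP
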