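import Mathlib
import Pool.Agent.Lib.SSG.LP.D
import Pool.Agent.Lib.H55K.G5E
import Pool.Agent.Lib.H55K.G5D
import Pool.Agent.Lib.H55K.SD

/-! # SSG/LP: the product of the parameters of the points killed by β^N -/

open NumberField IsDedekindDomain WeierstrassCurve

namespace SSG.LP

open H55P (IQ embF eF LF Per IsHecke Pt ac Inert Dec)
open H35P (WAB Ker tt)
open H55K H55K.S
open H55P (Nm)

variable {F : Type} [Field F] [NumberField F] [IQ F] {A B : F} {Om : ℂ} {Ω : Type} [Field Ω] [DecidableEq Ω]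
  [Algebra F Ω] {j : Ω →+* ℂ} {act : 𝓞 F →+* AddMonoid.End (Pt (WAB A B) Ω)} {β : 𝓞 F} {V : ValuationSubring Ω}

/-! Chunk C (M). PROOF. Induction on N. N = 0: β^0 = 1: S = ∅. N + 1: S = nonzero points killed by β^(N+1) is the disjoint union of S₁ (nonzero, killed by β) and the fibres of R ↦ act β R over the R' in S_N (exists_TN): fibre of R':
choose Q with act β Q = R' (h.surj); the fibre is {Q} ∪ {Q + R : R in S₁} = image of insert 0 S₁ under Q + . (Finset.prod_fiberwise / prod_biUnion; act β (Q + R) = R'). All these points are in Ker V (tor_ker, ker_red: as in SSG/LT/PT.lean pt_ker, or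
hypothesis-free from H55K), so ker_prod: V(tt Q) prod over S₁ V(tt (Q + R)) = V(tt R'). Product: (prod over S₁) * (prod over S_N) = V(β) V(β)^N. prod over S₁ = V(β): tor_ram gives V(tt R)^(Nm β - 1) = V(β) for every R in S₁
and S₁ has Nm β - 1 elements with equal V(tt R) (pow_left_inj₀). -/

theorem c_ker (h : CMA F A B Om j act) (hG : GV A B V) (hβ : Prime β) (hv : V.valuation (ak Ω β) < 1) (N : ℕ)
    (R : Pt (WAB A B) Ω) (hR : act (β ^ N) R = 0) : Ker V R := by
  induction N generalizing R with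
  | zero =>
    rw [pow_zero, act_one] at hR
    rw [hR]
    exact H55K.ker_zero V
  | succ N ih =>
    rw [pow_succ, act_mul] at hR
    exact ker_red h hG hβ hv (ih _ hR)

theorem c_one (h : CMA F A B Om j act) (hG : GV A B V) (hβ : Prime β) (hv : V.valuation (ak Ω β) < 1)
    {S : Finset (Pt (WAB A B) Ω)} (hS : TN act β S) (hc : S.card = Nm β - 1) :
    ∏ R ∈ S, V.valuation (tt R) = V.valuation (ak Ω β) := by
  obtain ⟨T₀, hT, _, hz, _⟩ := h.gen β hβ.ne_zero
  have hT0 : T₀ ≠ 0 := by
    intro h0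
    have h1 := (hz 1).1 (by rw [act_one, h0])
    exact hβ.not_isUnit (isUnit_of_dvd_one h1)
  have hmem : T₀ ∈ S := (hS T₀).2 ⟨hT, hT0⟩
  have hpos : Nm β - 1 ≠ 0 := by
    rw [← hc]
    exact Finset.card_ne_zero_of_mem hmem
  have hT1 := (tor_ram h hG hβ hv (T := T₀) hT hT0).2
  have hall : ∀ R ∈ S, V.valuation (tt R) = V.valuation (tt T₀) := by
    intro R hR
    obtain ⟨h1, h2⟩ := (hS R).1 hR
    have h3 := (tor_ram h hG hβ hv (T := R) h1 h2).2
    exact (pow_left_inj₀ zero_le zero_le hpos).1 (h3.trans hT1.symm)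
  rw [Finset.prod_congr rfl hall, Finset.prod_const, hc, hT1]

theorem prod_tt (h : CMA F A B Om j act) (hG : GV A B V) (hβ : Prime β) (hv : V.valuation (ak Ω β) < 1) (N : ℕ)
    {S : Finset (Pt (WAB A B) Ω)} (hS : TN act (β ^ N) S) :
    ∏ R ∈ S, V.valuation (tt R) = V.valuation (ak Ω β) ^ N := by
  classical
  induction N generalizing S with
  | zero =>
    have h1 : S = ∅ := by
      refine Finset.eq_empty_of_forall_notMem fun T hT => ?_
      obtain ⟨h2, h3⟩ := (hS T).1 hT
      rw [pow_zero, act_one] at h2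
      exact h3 h2
    rw [h1, Finset.prod_empty, pow_zero]
  | succ N ih =>
    obtain ⟨S₁, hS₁, hc₁⟩ := exists_TN h hβ.ne_zero
    obtain ⟨S', hS', -⟩ := exists_TN h (pow_ne_zero N hβ.ne_zero)
    have e1 : S.filter (fun R => act β R = 0) = S₁ := by
      ext R
      rw [Finset.mem_filter, hS R, hS₁ R, pow_succ, act_mul]
      constructor
      · rintro ⟨⟨_, h2⟩, h3⟩
        exact ⟨h3, h2⟩
      · rintro ⟨h3, h2⟩
        exact ⟨⟨by rw [h3, map_zero], h2⟩, h3⟩
    have e2 : ∀ R ∈ S.filter (fun R => ¬ act β R = 0), act β R ∈ S' := by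
      intro R hR
      rw [Finset.mem_filter, hS R, pow_succ, act_mul] at hR
      exact (hS' _).2 ⟨hR.1.1, hR.2⟩
    have e3 : ∀ R' ∈ S', ∏ R ∈ (S.filter (fun R => ¬ act β R = 0)).filter (fun R => act β R = R'),
        V.valuation (tt R) = V.valuation (tt R') := by
      intro R' hR'
      obtain ⟨h1, h2⟩ := (hS' R').1 hR'
      obtain ⟨Q, hQ⟩ := h.surj β hβ.ne_zero R'
      have hKQ : Ker V Q := by
        refine ker_red h hG hβ hv ?_
        rw [hQ]
        exact c_ker h hG hβ hv N R' h1
      have hfib : (S.filter (fun R => ¬ act β R = 0)).filter (fun R => act β R = R') =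
          insert Q (S₁.image fun R => Q + R) := by
        ext R
        rw [Finset.mem_filter, Finset.mem_filter, hS R, pow_succ, act_mul, Finset.mem_insert, Finset.mem_image]
        constructor
        · rintro ⟨⟨⟨_, h3⟩, h4⟩, h5⟩
          by_cases h6 : R = Q
          · exact Or.inl h6
          · refine Or.inr ⟨R - Q, (hS₁ _).2 ⟨?_, sub_ne_zero.2 h6⟩, by abel⟩
            rw [map_sub, h5, hQ, sub_self]
        · intro h3
          have h4 : act β R = R' := by
            rcases h3 with rfl | ⟨T, hT, rfl⟩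
            · exact hQ
            · rw [map_add, hQ, ((hS₁ T).1 hT).1, add_zero]
          refine ⟨⟨⟨by rw [h4, h1], ?_⟩, by rw [h4]; exact h2⟩, h4⟩
          rintro rfl
          rw [map_zero] at h4
          exact h2 h4.symm
      have hnot : Q ∉ S₁.image fun R => Q + R := by
        intro h3
        obtain ⟨T, hT, h4⟩ := Finset.mem_image.1 h3
        exact ((hS₁ T).1 hT).2 (left_eq_add.1 h4.symm)
      rw [hfib, Finset.prod_insert hnot, Finset.prod_image (fun a _ b _ hab => add_left_cancel hab),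
        ker_prod h hG hβ hv hS₁ hKQ, hQ]
    rw [← Finset.prod_filter_mul_prod_filter_not S (fun R => act β R = 0), e1, c_one h hG hβ hv hS₁ hc₁,
      ← Finset.prod_fiberwise_of_maps_to e2, Finset.prod_congr rfl e3, ih hS', pow_succ']

end SSG.LP
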