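import Mathlib
import Pool.Agent.Lib.H35M.KD
import Pool.Agent.Lib.H35M.KL6
import Pool.Agent.Lib.SSG.LT.FC

/-! # SSG/LP: the class Cl and the classes of H35M -/

namespace SSG.LP

open SSG.LT

variable {C : Type} [NormedField C] [IsUltrametricDist C] {G : Type} {X : G → C}

/-! Chunk E (S/M). PROOF. Given Q : MvPolynomial (Fin 2) C with integral coefficients, put Q' = Q.eval₂ (Polynomial.C.comp Polynomial.C) ![Polynomial.X, Polynomial.C Polynomial.X] (a sum over the support of C (C (coeff m)) * X ^ m 0 * C (X ^ m 1):
MvPolynomial.eval₂_eq'): its coefficients (Q'.coeff i).coeff j are sums of numbers of norm ≤ 1 (Polynomial.finset_sum_coeff, coeff_C_mul, coeff_X_pow, IsUltrametricDist.norm_sum_le_of_forall_le_of_nonneg) and its value at (X a, X b) is the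
value of Q at ![X a, X b] (MvPolynomial.eval₂_comp_left / hom_eval₂ or sum by sum). -/

theorem fn2_of_cl {g : G → G → C}
    (h : Cl (X := G × G) (ι := Fin 2) (fun k x => if k = 0 then X x.1 else X x.2) fun x => g x.1 x.2) : H35M.Fn2 X g := by
  classical
  intro ε hε
  obtain ⟨Q, hQ, h1⟩ := h ε hε
  refine ⟨∑ m ∈ Q.support, Polynomial.monomial (m 0) (Polynomial.monomial (m 1) (Q.coeff m)), fun i j => ?_, fun a b => ?_⟩
  · rw [Polynomial.finset_sum_coeff, Polynomial.finset_sum_coeff]
    refine IsUltrametricDist.norm_sum_le_of_forall_le_of_nonneg zero_le_one fun m _ => ?_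
    rw [Polynomial.coeff_monomial]
    split
    · rw [Polynomial.coeff_monomial]
      split
      · exact hQ m
      · rw [norm_zero]
        exact zero_le_one
    · rw [Polynomial.coeff_zero, norm_zero]
      exact zero_le_one
  · have h2 := h1 (a, b)
    rw [MvPolynomial.eval_eq'] at h2
    have h3 : ((∑ m ∈ Q.support, Polynomial.monomial (m 0) (Polynomial.monomial (m 1) (Q.coeff m))).eval
        (Polynomial.C (X a))).eval (X b) =
        ∑ d ∈ Q.support, Q.coeff d * ∏ i : Fin 2, (if i = 0 then X (a, b).1 else X (a, b).2) ^ d i := by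
      rw [Polynomial.eval_finset_sum, Polynomial.eval_finset_sum]
      refine Finset.sum_congr rfl fun m _ => ?_
      rw [Polynomial.eval_monomial, Polynomial.eval_mul, Polynomial.eval_monomial, Polynomial.eval_pow, Polynomial.eval_C,
        Fin.prod_univ_two, if_pos rfl, if_neg (by decide)]
      ring
    rw [h3]
    exact h2

end SSG.LP
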