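import Mathlib
import Pool.Agent.Lib.SSG.LP.B
import Pool.Agent.Lib.SSG.LP.C
import Pool.Agent.Lib.SSG.LP.E
import Pool.Agent.Lib.SSG.LT.PA3
import Pool.Agent.Lib.SSG.LT.XM1

/-! # SSG/LP: the coordinates -/

open NumberField IsDedekindDomain WeierstrassCurve

namespace SSG.LP

open H55P (IQ embF eF LF Per IsHecke Pt ac Inert Dec)
open H35P (WAB Ker tt)
open H55K SSG.LT

variable {F : Type} [Field F] [NumberField F] [IQ F] {A B : F} {Om : ℂ} {Ω : Type} [Field Ω] [DecidableEq Ω]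
  [Algebra F Ω] {j : Ω →+* ℂ} {act : 𝓞 F →+* AddMonoid.End (Pt (WAB A B) Ω)} {β : 𝓞 F} {V : ValuationSubring Ω}
  {C : Type} [NormedField C] [IsUltrametricDist C] [CompleteSpace C] {i : Ω →+* C} {T : ℕ → Pt (WAB A B) Ω}

/-- The action of an integer on the point of order `β ^ N` depends only on its class. -/
theorem f_eq (hT : PtsB A B Om j act β V T) {N : ℕ} {a b : 𝓞 F} (hab : β ^ N ∣ a - b) : act a (T N) = act b (T N) := by
  have h1 := (hT.zero N (a - b)).2 hab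
  rw [H55K.S.act_sub] at h1
  exact sub_eq_zero.1 h1

/-- The class of the representative. -/
theorem f_out {N : ℕ} (a : 𝓞 F) :
    β ^ N ∣ (Quotient.out (Ideal.Quotient.mk (Ideal.span {β ^ N}) a) : 𝓞 F) - a := by
  rw [← Ideal.mem_span_singleton, ← Ideal.Quotient.eq]
  exact Ideal.Quotient.mk_out _

/-! Chunk F1 (S). PROOF. act a (T N) depends on a modulo β^N only (zero: act (a - b) (T N) = 0): X N = Quotient.lift, or X N q = i (tt (act q.out (T N))) with mk_out. -/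
theorem f_exists (hT : PtsB A B Om j act β V T) : ∃ X : ∀ N, RB β N → C, ∀ N (a : 𝓞 F),
    X N (Ideal.Quotient.mk _ a) = i (tt (act a (T N))) := by
  refine ⟨fun N q => i (tt (act (Quotient.out q : 𝓞 F) (T N))), fun N a => ?_⟩
  show i (tt (act (Quotient.out (Ideal.Quotient.mk (Ideal.span {β ^ N}) a) : 𝓞 F) (T N))) = _
  rw [f_eq hT (f_out a)]

/-! F2 (S/M). xm1_bd (b = β^N). -/
theorem f_small (h : CMA F A B Om j act) (hG : GV A B V) (hβ : Prime β) (hi : ∀ x, x ∈ V ↔ ‖i x‖ ≤ 1)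
    (hT : PtsB A B Om j act β V T) {X : ∀ N, RB β N → C} (hX : ∀ N (a : 𝓞 F), X N (Ideal.Quotient.mk _ a) = i (tt (act a (T N))))
    (N : ℕ) : ∃ ρ : ℝ, ρ < 1 ∧ ∀ a, ‖X N a‖ ≤ ρ := by
  obtain ⟨ρ, hρ, h1⟩ := xm1_bd h hG i hi (pow_ne_zero N hβ.ne_zero) ((hT.zero N (β ^ N)).2 dvd_rfl) (hT.ker N)
  refine ⟨ρ, hρ, fun q => ?_⟩
  obtain ⟨a, rfl⟩ := Ideal.Quotient.mk_surjective q
  rw [hX]
  exact h1 a

/-! F3 (M). le: f_small. inj: Ideal.Quotient.mk_surjective, xm1_inj (i injective), act a (T N) = act b (T N) iff β^N ∣ a - b. zero: act 0 = 0, tt 0 = 0. neg: tt_neg. add: fn2_of_cl; the family P x = act (a + b) (T N) over G × G, a, b representatives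
(Quotient.out), is a sum of two families P₁ x = act x.1.out (T N), P₂ x = act x.2.out (T N); each is PC V i τ (ker, small, cl: Cl.var 0, Cl.var 1 with congr: X (x.1) = i (tt (act x.1.out (T N))) by hX and mk_out); PC.add; X (a + b) = i (tt (P₁ + P₂)). -/
theorem f_fg (h : CMA F A B Om j act) (hG : GV A B V) (hβ : Prime β) (hi : ∀ x, x ∈ V ↔ ‖i x‖ ≤ 1)
    (hT : PtsB A B Om j act β V T) {X : ∀ N, RB β N → C} (hX : ∀ N (a : 𝓞 F), X N (Ideal.Quotient.mk _ a) = i (tt (act a (T N))))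
    (N : ℕ) : H35M.FG (X N) := by
  classical
  obtain ⟨ρ, hρ, hs⟩ := f_small h hG hβ hi hT hX N
  have hle : ∀ a, ‖X N a‖ ≤ 1 := fun a => (hs a).trans hρ.le
  have hXo : ∀ q : RB β N, X N q = i (tt (act (Quotient.out q : 𝓞 F) (T N))) := by
    intro q
    rw [← hX, Ideal.Quotient.mk_out]
  refine ⟨hle, ?_, ?_, ?_, ?_⟩
  · intro q q' hqq
    obtain ⟨a, rfl⟩ := Ideal.Quotient.mk_surjective q
    obtain ⟨b, rfl⟩ := Ideal.Quotient.mk_surjective q'
    rw [hX, hX] at hqq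
    have h1 := xm1_inj hG (hT.ker N a) (hT.ker N b) (i.injective hqq)
    rw [Ideal.Quotient.eq, Ideal.mem_span_singleton, ← hT.zero N, H55K.S.act_sub, h1, sub_self]
  · have h1 := hX N 0
    rw [map_zero (Ideal.Quotient.mk (Ideal.span {β ^ N})), H55K.S.act_zero] at h1
    rw [h1]
    exact map_zero i
  · intro q
    obtain ⟨a, rfl⟩ := Ideal.Quotient.mk_surjective q
    rw [← map_neg (Ideal.Quotient.mk (Ideal.span {β ^ N})), hX, hX, H55K.S.act_neg, tt_neg, map_neg]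
  · obtain ⟨τ, hτd⟩ : ∃ τ : Fin 2 → RB β N × RB β N → C, τ = fun k x => if k = 0 then X N x.1 else X N x.2 := ⟨_, rfl⟩
    have hτ : ∀ k x, ‖τ k x‖ ≤ 1 := by
      intro k x
      rw [hτd]
      show ‖if k = 0 then X N x.1 else X N x.2‖ ≤ 1
      split_ifs
      · exact hle _
      · exact hle _
    have hP1 : PC V i τ (fun x : RB β N × RB β N => act (Quotient.out x.1 : 𝓞 F) (T N)) := by
      refine ⟨fun x => hT.ker N _, ⟨ρ, hρ, fun x => ?_⟩, ?_⟩
      · rw [← hXo]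
        exact hs _
      · refine (Cl.var (τ := τ) 0).congr fun x => ?_
        rw [← hXo, hτd]
        exact (if_pos rfl).symm
    have hP2 : PC V i τ (fun x : RB β N × RB β N => act (Quotient.out x.2 : 𝓞 F) (T N)) := by
      refine ⟨fun x => hT.ker N _, ⟨ρ, hρ, fun x => ?_⟩, ?_⟩
      · rw [← hXo]
        exact hs _
      · refine (Cl.var (τ := τ) 1).congr fun x => ?_
        rw [← hXo, hτd]
        exact (if_neg (by decide)).symm
    have hP := PC.add hτ hi hG hP1 hP2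
    refine fn2_of_cl (g := fun a b => X N (a + b)) ?_
    rw [← hτd]
    refine hP.cl.congr fun x => ?_
    show X N (x.1 + x.2) = i (tt (act (Quotient.out x.1 : 𝓞 F) (T N) + act (Quotient.out x.2 : 𝓞 F) (T N)))
    rw [← H55K.S.act_add, ← hX, map_add, Ideal.Quotient.mk_out, Ideal.Quotient.mk_out]

end SSG.LP
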