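import Mathlib
import Pool.Agent.Lib.SSG.LP.F

/-! # SSG/LP: the product of the coordinates and the functions of several variables -/

open NumberField IsDedekindDomain WeierstrassCurve

namespace SSG.LP

open H55P (IQ embF eF LF Per IsHecke Pt ac Inert Dec)
open H35P (WAB Ker tt)
open H55K SSG.LT

variable {F : Type} [Field F] [NumberField F] [IQ F] {A B : F} {Om : ℂ} {Ω : Type} [Field Ω] [DecidableEq Ω]
  [Algebra F Ω] {j : Ω →+* ℂ} {act : 𝓞 F →+* AddMonoid.End (Pt (WAB A B) Ω)} {β : 𝓞 F} {V : ValuationSubring Ω}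
  {C : Type} [NormedField C] [IsUltrametricDist C] [CompleteSpace C] {i : Ω →+* C} {T : ℕ → Pt (WAB A B) Ω}

omit [DecidableEq Ω] in
/-- Equal valuations have equal norms. -/
theorem g_norm {V : ValuationSubring Ω} {C : Type} [NormedField C] {i : Ω →+* C} (hi : ∀ x, x ∈ V ↔ ‖i x‖ ≤ 1)
    {x y : Ω} (hy : y ≠ 0) (hxy : V.valuation x = V.valuation y) : ‖i x‖ = ‖i y‖ := by
  have hvy : V.valuation y ≠ 0 := (Valuation.ne_zero_iff _).2 hy
  have hx : x ≠ 0 := by
    rintro rfl
    rw [map_zero] at hxy
    exact hvy hxy.symm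
  have key : ∀ u w : Ω, w ≠ 0 → V.valuation u = V.valuation w → ‖i u‖ ≤ ‖i w‖ := by
    intro u w hw huw
    have hvw : V.valuation w ≠ 0 := (Valuation.ne_zero_iff _).2 hw
    have h1 : V.valuation (u / w) ≤ 1 := by
      rw [map_div₀, huw, div_self hvw]
    have h2 := (hi _).1 ((V.valuation_le_one_iff _).1 h1)
    have h3 : 0 < ‖i w‖ := norm_pos_iff.2 ((map_ne_zero i).2 hw)
    rw [map_div₀, norm_div, div_le_one h3] at h2
    exact h2
  exact le_antisymm (key x y hy hxy) (key y x hx hxy.symm)

/-! Chunk G1 (M). PROOF. S from exists_TN for β^N. The map b ↦ act b.out (T N) is a bijection from the nonzero classes onto S (surjective: every point killed by β^N is act a (T N): h.gen (β^N) has T₀ with Tor = {act a T₀}; and T N generates too: same cardinality: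
the injective map from RB β N into Tor act (β^N) is surjective since both have Nm (β^N) elements (H55K.exists_TN: S.card = Nm b - 1; card of the quotient = Ideal.absNorm = Nm) or: T N = act c T₀ with c prime to β). So the product of the norms
‖X N b‖ = ‖i (tt R)‖ over S equals ‖i (product)‖; prod_tt: V.valuation (product of the tt R) = V.valuation (ak Ω β ^ N) (map_prod, map_pow), and V.valuation x = V.valuation y implies ‖i x‖ = ‖i y‖ (y ≠ 0: x/y and y/x are in V). -/
theorem g_prod (h : CMA F A B Om j act) (hG : GV A B V) (hβ : Prime β) (hv : V.valuation (ak Ω β) < 1) (hi : ∀ x, x ∈ V ↔ ‖i x‖ ≤ 1)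
    (hT : PtsB A B Om j act β V T) {X : ∀ N, RB β N → C} (hX : ∀ N (a : 𝓞 F), X N (Ideal.Quotient.mk _ a) = i (tt (act a (T N))))
    (N : ℕ) [Fintype (RB β N)] [DecidableEq (RB β N)] : ‖H35M.cX (X N)‖ = ‖i (ak Ω β)‖ ^ N := by
  classical
  obtain ⟨S, hS, hcard⟩ := exists_TN h (pow_ne_zero N hβ.ne_zero)
  have hXo : ∀ q : RB β N, X N q = i (tt (act (Quotient.out q : 𝓞 F) (T N))) := by
    intro q
    rw [← hX, Ideal.Quotient.mk_out]
  have hinj : Function.Injective fun q : RB β N => act (Quotient.out q : 𝓞 F) (T N) := by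
    intro q q' hqq
    have h1 : act ((Quotient.out q : 𝓞 F) - Quotient.out q') (T N) = 0 := by
      rw [H55K.S.act_sub]
      exact sub_eq_zero.2 hqq
    rw [hT.zero N, ← Ideal.mem_span_singleton, ← Ideal.Quotient.eq, Ideal.Quotient.mk_out,
      Ideal.Quotient.mk_out] at h1
    exact h1
  have hc : Fintype.card (RB β N) = H55P.Nm (β ^ N) := by
    unfold H55P.Nm
    rw [Ideal.absNorm_apply, Submodule.cardQuot_apply, ← Nat.card_eq_fintype_card]
  have himg : (Finset.univ.erase (0 : RB β N)).image (fun q : RB β N => act (Quotient.out q : 𝓞 F) (T N)) = S := by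
    refine Finset.eq_of_subset_of_card_le ?_ ?_
    · intro R hR
      obtain ⟨q, hq, rfl⟩ := Finset.mem_image.1 hR
      refine (hS _).2 ⟨?_, ?_⟩
      · rw [← H55K.S.act_mul, hT.zero N]
        exact dvd_mul_right _ _
      · intro h0
        rw [hT.zero N, ← Ideal.mem_span_singleton, ← Ideal.Quotient.eq_zero_iff_mem, Ideal.Quotient.mk_out] at h0
        exact (Finset.mem_erase.1 hq).1 h0
    · rw [Finset.card_image_of_injective _ hinj, Finset.card_erase_of_mem (Finset.mem_univ _), Finset.card_univ,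
        hc, hcard]
  have h1 : H35M.cX (X N) = i (∏ R ∈ S, tt R) := by
    unfold H35M.cX
    rw [← himg, Finset.prod_image (fun a _ b _ hab => hinj hab), map_prod]
    exact Finset.prod_congr rfl fun q _ => hXo q
  have h2 : V.valuation (∏ R ∈ S, tt R) = V.valuation (ak Ω β ^ N) := by
    rw [map_prod, prod_tt h hG hβ hv N hS, map_pow]
  have hne : ak Ω β ≠ 0 := by
    have h3 : (β : F) ≠ 0 := by
      rw [Ne, RingOfIntegers.coe_eq_zero_iff]
      exact hβ.ne_zero
    exact (map_ne_zero (algebraMap F Ω)).2 h3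
  rw [h1, g_norm hi (pow_ne_zero N hne) h2, map_pow, norm_pow]

end SSG.LP
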