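import Mathlib
import Pool.Agent.Lib.SSG.LP.F

/-! # SSG/LP: the functions of several variables -/

open NumberField IsDedekindDomain WeierstrassCurve

namespace SSG.LP

open H55P (IQ embF eF LF Per IsHecke Pt ac Inert Dec)
open H35P (WAB Ker tt)
open H55K SSG.LT

variable {F : Type} [Field F] [NumberField F] [IQ F] {A B : F} {Om : ℂ} {Ω : Type} [Field Ω] [DecidableEq Ω]
  [Algebra F Ω] {j : Ω →+* ℂ} {act : 𝓞 F →+* AddMonoid.End (Pt (WAB A B) Ω)} {β : 𝓞 F} {V : ValuationSubring Ω}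
  {C : Type} [NormedField C] [IsUltrametricDist C] [CompleteSpace C] {i : Ω →+* C} {T : ℕ → Pt (WAB A B) Ω}

/-! Chunk H (M). PROOF. Copy of SSG/LT/XM4.lean (xm4): X = ι → RB β N, τ k a = X N (a k), P_k a = act (a k).out (T N): PC V i τ P_k (ker: hT.ker; small: f_small; cl: Cl.var k, X N (a k) = i (tt (act (a k).out (T N))) by hX and Ideal.Quotient.mk_out);
PC.act_all, PC.sum: a ↦ act (∑ k, c k * (a k).out) (T N) is in the class, and H a = H (fun k => mk (a k).out) = i (tt (...)) by hH. FnM X ι H unfolds to Cl τ H. -/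
theorem h_fn (h : CMA F A B Om j act) (hG : GV A B V) (hβ : Prime β) (hi : ∀ x, x ∈ V ↔ ‖i x‖ ≤ 1)
    (hT : PtsB A B Om j act β V T) {X : ∀ N, RB β N → C} (hX : ∀ N (a : 𝓞 F), X N (Ideal.Quotient.mk _ a) = i (tt (act a (T N))))
    (N : ℕ) (ι : Type) [Fintype ι] (c : ι → 𝓞 F) (H : (ι → RB β N) → C)
    (hH : ∀ a : ι → 𝓞 F, H (fun k => Ideal.Quotient.mk _ (a k)) = i (tt (act (∑ k, c k * a k) (T N)))) :
    H35M.FnM (X N) ι H := by
  have hlt : ∀ N b, ‖i (tt (act b (T N)))‖ < 1 := by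
    intro N b
    have hx : V.valuation (tt (act b (T N))) < 1 := ttlt hG (hT.ker N b)
    by_cases h0 : tt (act b (T N)) = 0
    · rw [h0, map_zero, norm_zero]
      exact one_pos
    · by_contra hc
      push Not at hc
      have h1 : ‖i (tt (act b (T N)))⁻¹‖ ≤ 1 := by
        rw [map_inv₀, norm_inv]
        exact inv_le_one_of_one_le₀ hc
      have h2 := (V.valuation_le_one_iff _).2 ((hi _).2 h1)
      rw [map_inv₀, inv_le_one₀ (zero_lt_iff.2 ((map_ne_zero _).2 h0))] at h2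
      exact absurd hx (not_lt.2 h2)
  have hXo : ∀ q : RB β N, X N q = i (tt (act (Quotient.out q) (T N))) := by
    intro q
    have h1 := hX N (Quotient.out q)
    have h2 : (Ideal.Quotient.mk (Ideal.span {β ^ N})) (Quotient.out q) = q := Quotient.out_eq q
    rw [h2] at h1
    exact h1
  have hτ : ∀ (k : ι) (x : ι → RB β N), ‖(fun (k : ι) (x : ι → RB β N) => X N (x k)) k x‖ ≤ 1 := by
    intro k x
    show ‖X N (x k)‖ ≤ 1
    rw [hXo (x k)]
    exact (hlt N _).le
  have hp0 : β ^ N ≠ 0 := pow_ne_zero _ hβ.ne_zero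
  obtain ⟨ρ, hρ, hρ2⟩ := xm1_bd h hG i hi hp0 ((hT.zero N _).2 dvd_rfl) (hT.ker N)
  have hPC : ∀ k : ι, PC V i (fun (k : ι) (x : ι → RB β N) => X N (x k)) (fun x => act (Quotient.out (x k)) (T N)) := fun k =>
    ⟨fun x => hT.ker N _, ⟨ρ, hρ, fun x => hρ2 _⟩,
      (Cl.var (τ := fun (k : ι) (x : ι → RB β N) => X N (x k)) k).congr fun x => (hXo (x k)).symm⟩
  have h2 := PC.sum hτ hi hG Finset.univ (P := fun (k : ι) (x : ι → RB β N) => act (c k) (act (Quotient.out (x k)) (T N)))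
    fun k _ => PC.act_all hτ hi h hG (c k) (hPC k)
  have h4 : ∀ (x : ι → RB β N) (s : Finset ι), act (∑ k ∈ s, c k * Quotient.out (x k)) (T N) = ∑ k ∈ s, act (c k) (act (Quotient.out (x k)) (T N)) := by
    classical
    intro x s
    induction s using Finset.induction_on with
    | empty =>
      rw [Finset.sum_empty, Finset.sum_empty, map_zero]
      rfl
    | insert k s hk ih =>
      rw [Finset.sum_insert hk, Finset.sum_insert hk, map_add, map_mul]
      show act (c k) (act (Quotient.out (x k)) (T N)) + act (∑ k ∈ s, c k * Quotient.out (x k)) (T N) = _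
      rw [ih]
  intro ε hε
  obtain ⟨Q, hQ, h5⟩ := h2.cl ε hε
  refine ⟨Q, hQ, fun x => ?_⟩
  have h6 := h5 x
  have h7 : H x = i (tt (act (∑ k, c k * Quotient.out (x k)) (T N))) := by
    rw [← hH]
    congr 1
    funext k
    exact (Quotient.out_eq (x k)).symm
  rw [h7, h4 x Finset.univ]
  exact h6

end SSG.LP
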