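import Mathlib
import Pool.Agent.Lib.SSG.LP.A
import Pool.Agent.Lib.SSG.LP.G
import Pool.Agent.Lib.SSG.LP.H

/-! # SSG/LP: existence of the local model at a prime element β below V -/

open NumberField IsDedekindDomain WeierstrassCurve

namespace SSG.LP

open H55P (IQ embF eF LF Per IsHecke Pt ac Inert Dec)
open H35P (WAB Ker tt)
open H55K SSG.LT

variable {F : Type} [Field F] [NumberField F] [IQ F] {A B : F} {Om : ℂ} {Ω : Type} [Field Ω] [DecidableEq Ω]
  [Algebra F Ω] {j : Ω →+* ℂ} {act : 𝓞 F →+* AddMonoid.End (Pt (WAB A B) Ω)} {β : 𝓞 F} {V : ValuationSubring Ω}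

/-- The embedding of `Ω` in `ℂ_[p]`. -/
theorem exists_embC [IsAlgClosure F Ω] {p : ℕ} [Fact p.Prime] (V : ValuationSubring Ω) (hV : V.valuation (p : Ω) < 1) :
    ∃ i : Ω →+* ℂ_[p], ∀ x, x ∈ V ↔ ‖i x‖ ≤ 1 := by
  obtain ⟨i₀, h⟩ := em_all (F := F) V hV
  refine ⟨(algebraMap (PadicAlgCl p) ℂ_[p]).comp i₀, fun x => ?_⟩
  rw [RingHom.comp_apply, ← PadicComplex.coe_eq, PadicComplex.norm_extends]
  exact h x

/-- The local model, for every embedding inducing `V`. -/
theorem exists_locO (h : CMA F A B Om j act) (hG : GV A B V) (hβ : Prime β) (hv : V.valuation (ak Ω β) < 1)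
    {C : Type} [NormedField C] [IsUltrametricDist C] [CompleteSpace C] {i : Ω →+* C} (hi : ∀ x, x ∈ V ↔ ‖i x‖ ≤ 1) :
    ∃ (T : ℕ → Pt (WAB A B) Ω) (X : ∀ N, RB β N → C), LocO A B Om j act β V i T X := by
  obtain ⟨T, hT⟩ := pts (j := j) (Om := Om) h hG hβ hv
  obtain ⟨X, hX⟩ := f_exists (i := i) hT
  exact ⟨T, X,
    { toPtsB := hT
      val := hi
      Xmk := hX
      small := f_small h hG hβ hi hT hX
      fg := f_fg h hG hβ hi hT hX
      prod := fun N _ _ => g_prod h hG hβ hv hi hT hX N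
      fn := fun N ι _ c H hH => h_fn h hG hβ hi hT hX N ι c H hH }⟩

end SSG.LP
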